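import Mathlib

set_option autoImplicit false

/-!
# The divisibility poset of the ideal class monoid determines the numerical semigroup

Numerical semigroups with isomorphic posets `(Cl(S), ≼)` are equal.

Idea of the proof.  Normalised ideals are the sets `J ∋ 0` with `J + S ⊆ J`; such a `J` is the
complement of a finite set `Y` of gaps with `y - s ∈ Y` for `y ∈ Y`, `s ∈ S`, `s ≤ y`.
If `f` is the largest number missing in `J` then `J ∪ {f} = J + (S ∪ (f + S))`, so the number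
`|ℕ \ J|` is the length of the longest chain from `J` to the top: the poset knows it.
Let `k ∈ S₁ \ S₂` be the least number that is in exactly one of the two semigroups and let `c` be
the number of elements of `S₁` below `k`.  A set `Y` as above for `S₁` with `c` elements
lies below `k`, hence is such a set for `S₂`; but `{k - s : s ∈ S₂, s ≤ k}` is one more such set
for `S₂`.
-/

namespace Pool.Agent.Results.MP_6e7624_al.PosetDeterminesH61

open Pointwise

/-- Ideals of a submonoid `S` of `ℕ`: nonempty sets `E` of integers with `S + E ⊆ E` and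
`s + E ⊆ S` for some `s ∈ S`. -/
structure SIdeal (S : AddSubmonoid ℕ) where
  /-- the underlying set -/
  carrier : Set ℤ
  nonempty : carrier.Nonempty
  add_mem : ∀ s ∈ S, ∀ e ∈ carrier, (s : ℤ) + e ∈ carrier
  bounded : ∃ s ∈ S, ∀ e ∈ carrier, ∃ t ∈ S, (s : ℤ) + e = (t : ℤ)

namespace SIdeal

variable {S : AddSubmonoid ℕ}

theorem ext' {I J : SIdeal S} (h : I.carrier = J.carrier) : I = J := by
  cases I; cases J; cases h; rfl

/-- The sum `I + J = {i + j : i ∈ I, j ∈ J}`. -/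
def add (I J : SIdeal S) : SIdeal S where
  carrier := {x | ∃ i ∈ I.carrier, ∃ j ∈ J.carrier, x = i + j}
  nonempty := by
    obtain ⟨i, hi⟩ := I.nonempty
    obtain ⟨j, hj⟩ := J.nonempty
    exact ⟨i + j, i, hi, j, hj, rfl⟩
  add_mem := by
    rintro s hs _ ⟨i, hi, j, hj, rfl⟩
    exact ⟨s + i, I.add_mem s hs i hi, j, hj, by ring⟩
  bounded := by
    obtain ⟨s, hs, h⟩ := I.bounded
    obtain ⟨t, ht, h'⟩ := J.bounded
    refine ⟨s + t, S.add_mem hs ht, ?_⟩
    rintro _ ⟨i, hi, j, hj, rfl⟩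
    obtain ⟨a, ha, e⟩ := h i hi
    obtain ⟨b, hb, e'⟩ := h' j hj
    refine ⟨a + b, S.add_mem ha hb, ?_⟩
    push_cast
    rw [← e, ← e']
    ring

/-- `I ∼ J` if `I = z + J` for some integer `z`. -/
def Equiv (I J : SIdeal S) : Prop := ∃ z : ℤ, I.carrier = (fun x => z + x) '' J.carrier

theorem equiv_refl (I : SIdeal S) : Equiv I I := ⟨0, by simp⟩

theorem equiv_symm {I J : SIdeal S} (h : Equiv I J) : Equiv J I := by
  obtain ⟨z, hz⟩ := h
  refine ⟨-z, ?_⟩
  rw [hz, Set.image_image]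
  simp

theorem equiv_trans {I J K : SIdeal S} (h : Equiv I J) (h' : Equiv J K) : Equiv I K := by
  obtain ⟨z, hz⟩ := h
  obtain ⟨w, hw⟩ := h'
  refine ⟨z + w, ?_⟩
  rw [hz, hw, Set.image_image]
  simp [add_assoc]

theorem equiv_add {I I' J J' : SIdeal S} (h : Equiv I I') (h' : Equiv J J') :
    Equiv (I.add J) (I'.add J') := by
  obtain ⟨z, hz⟩ := h
  obtain ⟨w, hw⟩ := h'
  refine ⟨z + w, ?_⟩
  ext x
  constructor
  · rintro ⟨i, hi, j, hj, rfl⟩
    rw [hz] at hi
    rw [hw] at hj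
    obtain ⟨a, ha, rfl⟩ := hi
    obtain ⟨b, hb, rfl⟩ := hj
    exact ⟨a + b, ⟨a, ha, b, hb, rfl⟩, by simp only; ring⟩
  · rintro ⟨_, ⟨a, ha, b, hb, rfl⟩, rfl⟩
    refine ⟨z + a, ?_, w + b, ?_, by simp only; ring⟩
    · rw [hz]; exact ⟨a, ha, rfl⟩
    · rw [hw]; exact ⟨b, hb, rfl⟩

end SIdeal

/-- The equivalence relation `∼` on the ideals of `S`. -/
instance idealSetoid (S : AddSubmonoid ℕ) : Setoid (SIdeal S) where
  r := SIdeal.Equiv
  iseqv := ⟨SIdeal.equiv_refl, SIdeal.equiv_symm, SIdeal.equiv_trans⟩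

/-- The ideal class monoid `Cl(S)` (as a set with an addition). -/
def Cl (S : AddSubmonoid ℕ) : Type := Quotient (idealSetoid S)

/-- The addition of `Cl(S)`, induced by the sum of ideals. -/
instance (S : AddSubmonoid ℕ) : Add (Cl S) :=
  ⟨Quotient.map₂ SIdeal.add fun _ _ h _ _ h' => SIdeal.equiv_add h h'⟩

/-- The divisibility order: `a ≼ b` if `b = a + c` for some `c`. -/
def Dvd {S : AddSubmonoid ℕ} (a b : Cl S) : Prop := ∃ c : Cl S, b = a + c

/-! ### Normalised ideals -/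

/-- Normalised ideals: `0 ∈ E ⊆ ℕ`, `E + S ⊆ E`. -/
def Nm (S : AddSubmonoid ℕ) : Type :=
  {E : Set ℕ // 0 ∈ E ∧ ∀ s ∈ S, ∀ e ∈ E, s + e ∈ E}

section norm

variable {S : AddSubmonoid ℕ}

theorem bdd (I : SIdeal S) : BddBelow I.carrier := by
  obtain ⟨s, -, h⟩ := I.bounded
  refine ⟨-(s : ℤ), ?_⟩
  intro e he
  obtain ⟨t, -, e1⟩ := h e he
  have : (0 : ℤ) ≤ t := Int.natCast_nonneg t
  omega

/-- the least element -/
noncomputable def mu (I : SIdeal S) : ℤ := sInf I.carrier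

theorem mu_mem (I : SIdeal S) : mu I ∈ I.carrier := Int.csInf_mem I.nonempty (bdd I)

theorem mu_le (I : SIdeal S) {x : ℤ} (hx : x ∈ I.carrier) : mu I ≤ x := csInf_le (bdd I) hx

theorem mu_eq (I : SIdeal S) {x : ℤ} (hx : x ∈ I.carrier) (h : ∀ y ∈ I.carrier, x ≤ y) :
    mu I = x := le_antisymm (mu_le I hx) (h _ (mu_mem I))

/-- the normalised ideal of a class -/
noncomputable def nm (I : SIdeal S) : Set ℕ := {n | mu I + (n : ℤ) ∈ I.carrier}

theorem nm_zero (I : SIdeal S) : 0 ∈ nm I := by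
  simpa [nm] using mu_mem I

theorem nm_closed (I : SIdeal S) : ∀ s ∈ S, ∀ e ∈ nm I, s + e ∈ nm I := by
  intro s hs e he
  have := I.add_mem s hs _ he
  simp only [nm, Set.mem_ofPred_eq] at *
  convert this using 1
  push_cast
  ring

theorem mem_iff (I : SIdeal S) (x : ℤ) : x ∈ I.carrier ↔ ∃ n ∈ nm I, x = mu I + (n : ℤ) := by
  constructor
  · intro hx
    have h := mu_le I hx
    refine ⟨(x - mu I).toNat, ?_, ?_⟩
    · simp only [nm, Set.mem_ofPred_eq]
      rw [Int.toNat_of_nonneg (by omega)]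
      simpa using hx
    · rw [Int.toNat_of_nonneg (by omega)]; ring
  · rintro ⟨n, hn, rfl⟩
    exact hn

theorem equiv_iff (I J : SIdeal S) : SIdeal.Equiv I J ↔ nm I = nm J := by
  constructor
  · rintro ⟨z, hz⟩
    have h1 : mu I = z + mu J := by
      apply mu_eq
      · rw [hz]; exact ⟨_, mu_mem J, rfl⟩
      · intro y hy
        rw [hz] at hy
        obtain ⟨w, hw, rfl⟩ := hy
        have := mu_le J hw
        simp only
        omega
    ext n
    simp only [nm, Set.mem_ofPred_eq, h1]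
    rw [hz]
    constructor
    · rintro ⟨w, hw, e⟩
      simp only at e
      have : mu J + (n : ℤ) = w := by omega
      rwa [this]
    · intro h
      exact ⟨_, h, by simp only; ring⟩
  · intro h
    refine ⟨mu I - mu J, ?_⟩
    ext x
    rw [mem_iff, h]
    constructor
    · rintro ⟨n, hn, rfl⟩
      exact ⟨mu J + n, (mem_iff J _).2 ⟨n, hn, rfl⟩, by simp only; ring⟩
    · rintro ⟨w, hw, rfl⟩
      obtain ⟨n, hn, rfl⟩ := (mem_iff J _).1 hw
      exact ⟨n, hn, by simp only; ring⟩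

theorem mu_add (I J : SIdeal S) : mu (I.add J) = mu I + mu J := by
  apply mu_eq
  · exact ⟨_, mu_mem I, _, mu_mem J, rfl⟩
  · rintro _ ⟨i, hi, j, hj, rfl⟩
    exact add_le_add (mu_le I hi) (mu_le J hj)

theorem nm_add (I J : SIdeal S) : nm (I.add J) = nm I + nm J := by
  ext n
  rw [Set.mem_add]
  constructor
  · intro h
    simp only [nm, Set.mem_ofPred_eq, mu_add] at h
    obtain ⟨i, hi, j, hj, e⟩ := h
    obtain ⟨a, ha, rfl⟩ := (mem_iff I _).1 hi
    obtain ⟨b, hb, rfl⟩ := (mem_iff J _).1 hj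
    refine ⟨a, ha, b, hb, ?_⟩
    omega
  · rintro ⟨a, ha, b, hb, rfl⟩
    simp only [nm, Set.mem_ofPred_eq, mu_add]
    refine ⟨mu I + a, ha, mu J + b, hb, ?_⟩
    push_cast
    ring

/-- the class of a normalised ideal -/
noncomputable def ofNm (hS : ((S : Set ℕ)ᶜ).Finite) (E : Nm S) : SIdeal S where
  carrier := (fun n : ℕ => (n : ℤ)) '' E.1
  nonempty := ⟨_, 0, E.2.1, rfl⟩
  add_mem := by
    rintro s hs _ ⟨n, hn, rfl⟩
    exact ⟨s + n, E.2.2 s hs n hn, by push_cast; ring⟩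
  bounded := by
    obtain ⟨b, hb⟩ := hS.bddAbove
    have key : ∀ n, b < n → n ∈ S := by
      intro n hn
      by_contra h
      exact absurd (hb (show n ∈ (S : Set ℕ)ᶜ from h)) (by omega)
    refine ⟨b + 1, key _ (by omega), ?_⟩
    rintro _ ⟨n, hn, rfl⟩
    exact ⟨b + 1 + n, key _ (by omega), by push_cast; ring⟩

theorem nm_ofNm (hS : ((S : Set ℕ)ᶜ).Finite) (E : Nm S) : nm (ofNm hS E) = E.1 := by
  have h0 : mu (ofNm hS E) = 0 := by
    apply mu_eq
    · exact ⟨0, E.2.1, rfl⟩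
    · rintro _ ⟨n, -, rfl⟩
      exact Int.natCast_nonneg n
  ext n
  simp only [nm, Set.mem_ofPred_eq, h0, zero_add]
  constructor
  · rintro ⟨m, hm, e⟩
    have e' : (m : ℤ) = n := e
    have : m = n := by exact_mod_cast e'
    rwa [← this]
  · intro h
    exact ⟨n, h, rfl⟩

/-- the bijection between classes and normalised ideals -/
noncomputable def clEquiv (hS : ((S : Set ℕ)ᶜ).Finite) : Cl S ≃ Nm S where
  toFun := Quotient.lift (fun I => (⟨nm I, nm_zero I, nm_closed I⟩ : Nm S))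
    (fun I J h => Subtype.ext ((equiv_iff I J).1 h))
  invFun E := Quotient.mk _ (ofNm hS E)
  left_inv a := by
    induction a using Quotient.inductionOn with
    | _ I =>
      apply Quotient.sound
      exact (equiv_iff _ _).2 (nm_ofNm hS _)
  right_inv E := Subtype.ext (nm_ofNm hS E)

theorem clEquiv_add (hS : ((S : Set ℕ)ᶜ).Finite) (a b : Cl S) :
    (clEquiv hS (a + b)).1 = (clEquiv hS a).1 + (clEquiv hS b).1 := by
  induction a using Quotient.inductionOn with
  | _ I =>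
    induction b using Quotient.inductionOn with
    | _ J => exact nm_add I J

end norm

/-- divisibility of normalised ideals -/
def DvdN {S : AddSubmonoid ℕ} (I J : Nm S) : Prop := ∃ K : Nm S, J.1 = I.1 + K.1

theorem dvd_iff {S : AddSubmonoid ℕ} (hS : ((S : Set ℕ)ᶜ).Finite) (a b : Cl S) :
    Dvd a b ↔ DvdN (clEquiv hS a) (clEquiv hS b) := by
  constructor
  · rintro ⟨c, rfl⟩
    exact ⟨clEquiv hS c, clEquiv_add hS a c⟩
  · rintro ⟨K, hK⟩
    refine ⟨(clEquiv hS).symm K, ?_⟩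
    apply (clEquiv hS).injective
    apply Subtype.ext
    rw [hK, clEquiv_add, Equiv.apply_symm_apply]

/-! ### The number of missing elements -/

section count

variable {S : AddSubmonoid ℕ}

theorem sub_S (J : Nm S) : (S : Set ℕ) ⊆ J.1 := by
  intro s hs
  simpa using J.2.2 s hs 0 J.2.1

theorem compl_fin (hS : ((S : Set ℕ)ᶜ).Finite) (J : Nm S) : (J.1ᶜ).Finite :=
  hS.subset (Set.compl_subset_compl.2 (sub_S J))

/-- number of missing elements -/
noncomputable def co (J : Nm S) : ℕ := (J.1ᶜ).ncard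

theorem sub_of_dvd {I J : Nm S} (h : DvdN I J) : I.1 ⊆ J.1 := by
  obtain ⟨K, hK⟩ := h
  rw [hK]
  intro x hx
  exact ⟨x, hx, 0, K.2.1, by simp⟩

theorem co_lt (hS : ((S : Set ℕ)ᶜ).Finite) {I J : Nm S} (h : DvdN I J) (hne : I ≠ J) :
    co J < co I := by
  apply Set.ncard_lt_ncard _ (compl_fin hS I)
  have h1 := sub_of_dvd h
  refine ⟨Set.compl_subset_compl.2 h1, fun h2 => hne ?_⟩
  exact Subtype.ext (Set.Subset.antisymm h1 (Set.compl_subset_compl.1 h2))

/-- adding the largest missing element -/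
theorem step (hS : ((S : Set ℕ)ᶜ).Finite) (J : Nm S) (h : co J ≠ 0) :
    ∃ J' : Nm S, DvdN J J' ∧ J ≠ J' ∧ co J' + 1 = co J := by
  have hne : (J.1ᶜ).Nonempty := by
    rw [Set.nonempty_iff_ne_empty]
    intro h0
    apply h
    rw [co, h0, Set.ncard_empty]
  obtain ⟨f, hf, hmax⟩ := (compl_fin hS J).exists_maximal hne
  have hmax' : ∀ y, f < y → y ∈ J.1 := by
    intro y hy
    by_contra hy'
    have := hmax (show y ∈ J.1ᶜ from hy') hy.le
    omega
  have hf' : f ∉ J.1 := hf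
  let K : Nm S := ⟨{x | x ∈ S ∨ ∃ s ∈ S, x = f + s}, Or.inl S.zero_mem, by
    rintro s hs e (he | ⟨t, ht, rfl⟩)
    · exact Or.inl (S.add_mem hs he)
    · exact Or.inr ⟨s + t, S.add_mem hs ht, by ring⟩⟩
  have hset : J.1 + K.1 = insert f J.1 := by
    ext x
    rw [Set.mem_add]
    constructor
    · rintro ⟨a, ha, b, hb, rfl⟩
      rcases hb with hb | ⟨s, hs, rfl⟩
      · right
        rw [add_comm]
        exact J.2.2 b hb a ha
      · by_cases h0 : a + s = 0
        · left; omega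
        · right; apply hmax'; omega
    · rintro (rfl | hx)
      · exact ⟨0, J.2.1, _, Or.inr ⟨0, S.zero_mem, rfl⟩, by simp⟩
      · exact ⟨x, hx, 0, Or.inl S.zero_mem, by simp⟩
  let J' : Nm S := ⟨insert f J.1, Or.inr J.2.1, by
    rintro s hs e (rfl | he)
    · by_cases h0 : s = 0
      · left; omega
      · right; apply hmax'; omega
    · exact Or.inr (J.2.2 s hs e he)⟩
  refine ⟨J', ⟨K, hset.symm⟩, ?_, ?_⟩
  · intro h1
    apply hf'
    have : f ∈ J'.1 := Or.inl rfl
    rwa [← h1] at this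
  · have h1 : (J'.1)ᶜ = J.1ᶜ \ {f} := by
      ext x
      simp only [J', Set.mem_compl_iff, Set.mem_insert_iff, Set.mem_sdiff, Set.mem_singleton_iff]
      tauto
    rw [co, co, h1]
    exact Set.ncard_sdiff_singleton_add_one hf (compl_fin hS J)

end count

/-- an embedding of the posets does not decrease the number of missing elements -/
theorem co_le {S₁ S₂ : AddSubmonoid ℕ} (h₁ : ((S₁ : Set ℕ)ᶜ).Finite) (h₂ : ((S₂ : Set ℕ)ᶜ).Finite)
    (φ : Nm S₁ ≃ Nm S₂) (hφ : ∀ a b, DvdN a b → DvdN (φ a) (φ b)) :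
    ∀ (n : ℕ) (J : Nm S₁), co J = n → n ≤ co (φ J) := by
  intro n
  induction n with
  | zero => intro J _; exact Nat.zero_le _
  | succ n ih =>
    intro J hJ
    obtain ⟨J', hd, hne, hc⟩ := step h₁ J (by omega)
    have h3 := ih J' (by omega)
    have h4 := co_lt h₂ (hφ _ _ hd) (fun h => hne (φ.injective h))
    omega

theorem co_eq {S₁ S₂ : AddSubmonoid ℕ} (h₁ : ((S₁ : Set ℕ)ᶜ).Finite) (h₂ : ((S₂ : Set ℕ)ᶜ).Finite)
    (φ : Nm S₁ ≃ Nm S₂) (hφ : ∀ a b, DvdN (φ a) (φ b) ↔ DvdN a b) (J : Nm S₁) :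
    co (φ J) = co J := by
  apply le_antisymm
  · have := co_le h₂ h₁ φ.symm (fun a b h => by
      rw [← hφ]; simpa using h) _ (φ J) rfl
    simpa using this
  · exact co_le h₁ h₂ φ (fun a b h => (hφ a b).2 h) _ J rfl

/-! ### Down-sets of gaps -/

/-- the complements of normalised ideals with `c` missing elements -/
def Dn (S : AddSubmonoid ℕ) (c : ℕ) : Set (Set ℕ) :=
  {Y | 0 ∉ Y ∧ (∀ y ∈ Y, ∀ s ∈ S, s ≤ y → y - s ∈ Y) ∧ Y.ncard = c}

theorem compl_mem (S : AddSubmonoid ℕ) (Y : Set ℕ) (h0 : 0 ∉ Y)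
    (h : ∀ y ∈ Y, ∀ s ∈ S, s ≤ y → y - s ∈ Y) : 0 ∈ Yᶜ ∧ ∀ s ∈ S, ∀ e ∈ Yᶜ, s + e ∈ Yᶜ := by
  refine ⟨h0, ?_⟩
  intro s hs e he hse
  apply he
  have := h _ hse s hs (by omega)
  simpa using this

/-- normalised ideals with `c` missing elements -/
noncomputable def dnEquiv (S : AddSubmonoid ℕ) (c : ℕ) : {J : Nm S // co J = c} ≃ Dn S c where
  toFun J := ⟨J.1.1ᶜ, by
    refine ⟨fun h => h J.1.2.1, ?_, J.2⟩
    intro y hy s hs hle h
    apply hy
    have := J.1.2.2 s hs _ h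
    rwa [show s + (y - s) = y by omega] at this⟩
  invFun Y := ⟨⟨Y.1ᶜ, compl_mem S Y.1 Y.2.1 Y.2.2.1⟩, by
    show ((Y.1ᶜ)ᶜ).ncard = c
    rw [compl_compl]; exact Y.2.2.2⟩
  left_inv J := by
    apply Subtype.ext; apply Subtype.ext; simp
  right_inv Y := by
    apply Subtype.ext; simp

theorem dn_gap {S : AddSubmonoid ℕ} {c : ℕ} {Y : Set ℕ} (h : Y ∈ Dn S c) {y : ℕ} (hy : y ∈ Y) :
    y ∉ S := by
  intro hs
  apply h.1
  have := h.2.1 y hy y hs le_rfl
  simpa using this

theorem dn_finite {S : AddSubmonoid ℕ} (hS : ((S : Set ℕ)ᶜ).Finite) (c : ℕ) : (Dn S c).Finite := by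
  apply (hS.finite_subsets).subset
  intro Y hY y hy
  exact dn_gap hY hy

/-- the main counting step -/
theorem count {S₁ S₂ : AddSubmonoid ℕ} (h₁ : ((S₁ : Set ℕ)ᶜ).Finite) (k : ℕ) (hk1 : k ∈ S₁) (hk2 : k ∉ S₂)
    (hlt : ∀ n < k, (n ∈ S₁ ↔ n ∈ S₂)) :
    ∃ c : ℕ, Dn S₁ c ⊂ Dn S₂ c := by
  classical
  -- elements of the semigroups below `k`
  let A : Set ℕ := {s | s ∈ S₁ ∧ s < k}
  have hA : A = {s | s ∈ S₂ ∧ s < k} := by
    ext s
    constructor
    · rintro ⟨a, b⟩; exact ⟨(hlt s b).1 a, b⟩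
    · rintro ⟨a, b⟩; exact ⟨(hlt s b).2 a, b⟩
  have hAfin : A.Finite := (Set.finite_Iio k).subset fun s hs => hs.2
  refine ⟨A.ncard, ?_⟩
  have hsub : Dn S₁ A.ncard ⊆ Dn S₂ A.ncard := by
    intro Y hY
    have hYfin : Y.Finite := h₁.subset fun y hy => dn_gap hY hy
    have hYk : ∀ y ∈ Y, y < k := by
      intro y hy
      by_contra hyk
      have hne : y ≠ k := by
        rintro rfl
        exact dn_gap hY hy hk1
      -- the injection `s ↦ y - s` of `A ∪ {k}` into `Y`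
      have hcard : (insert k A).ncard ≤ Y.ncard := by
        apply Set.ncard_le_ncard_of_injOn (fun s => y - s) _ _ hYfin
        · rintro s (rfl | hs)
          · exact hY.2.1 y hy s hk1 (by omega)
          · exact hY.2.1 y hy s hs.1 (by have := hs.2; omega)
        · intro s hs t ht e
          have h1 : s ≤ k := by
            rcases hs with rfl | hs
            · exact le_rfl
            · exact hs.2.le
          have h2 : t ≤ k := by
            rcases ht with rfl | ht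
            · exact le_rfl
            · exact ht.2.le
          simp only at e
          omega
      rw [Set.ncard_insert_of_notMem (fun h => lt_irrefl _ h.2) hAfin, hY.2.2] at hcard
      omega
    refine ⟨hY.1, ?_, hY.2.2⟩
    intro y hy s hs hsy
    have := hYk y hy
    exact hY.2.1 y hy s ((hlt s (by omega)).2 hs) hsy
  refine ⟨hsub, fun hsup => ?_⟩
  -- the principal down-set of `k`
  let Y : Set ℕ := (fun s => k - s) '' A
  have hYmem : Y ∈ Dn S₂ A.ncard := by
    refine ⟨?_, ?_, ?_⟩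
    · rintro ⟨s, hs, e⟩
      have := hs.2
      simp only at e
      omega
    · rintro _ ⟨s, hs, rfl⟩ t ht hle
      rw [hA] at hs
      simp only at hle ⊢
      refine ⟨s + t, ?_, by simp only; omega⟩
      rw [hA]
      refine ⟨S₂.add_mem hs.1 ht, ?_⟩
      have h1 := hs.2
      have h2 : s + t ≤ k := by omega
      rcases h2.lt_or_eq with h3 | h3
      · exact h3
      · exact absurd (h3 ▸ S₂.add_mem hs.1 ht) hk2
    · apply Set.ncard_image_of_injOn
      intro s hs t ht e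
      have h1 := hs.2
      have h2 := ht.2
      simp only at e
      omega
  have hk0 : 0 < k := by
    rcases Nat.eq_zero_or_pos k with h | h
    · exact absurd (h ▸ S₂.zero_mem) hk2
    · exact h
  have hkY : k ∈ Y := ⟨0, ⟨S₁.zero_mem, hk0⟩, by simp⟩
  exact dn_gap (hsup hYmem) hkY hk1

theorem no_count {S₁ S₂ : AddSubmonoid ℕ} (φ : Nm S₁ ≃ Nm S₂) (hφ : ∀ J, co (φ J) = co J) (c : ℕ) :
    (Dn S₁ c).ncard = (Dn S₂ c).ncard := by
  have e : {J : Nm S₁ // co J = c} ≃ {J : Nm S₂ // co J = c} :=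
    φ.subtypeEquiv (fun J => by rw [hφ])
  have e' : Dn S₁ c ≃ Dn S₂ c := (dnEquiv S₁ c).symm.trans (e.trans (dnEquiv S₂ c))
  rw [← Nat.card_coe_set_eq, ← Nat.card_coe_set_eq]
  exact Nat.card_congr e'

/-- **Theorem.** Let `S₁`, `S₂` be numerical semigroups (submonoids of `ℕ` with finite complement)
whose ideal class monoids, ordered by `a ≼ b ↔ ∃ c, b = a + c`, are isomorphic as posets.  Then
`S₁ = S₂`. -/
theorem result (S₁ S₂ : AddSubmonoid ℕ) (h₁ : ((S₁ : Set ℕ)ᶜ).Finite)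
    (h₂ : ((S₂ : Set ℕ)ᶜ).Finite) (φ : Cl S₁ ≃ Cl S₂)
    (hφ : ∀ a b : Cl S₁, Dvd (φ a) (φ b) ↔ Dvd a b) : S₁ = S₂ := by
  classical
  by_contra hne
  -- transfer to normalised ideals
  let ψ : Nm S₁ ≃ Nm S₂ := (clEquiv h₁).symm.trans (φ.trans (clEquiv h₂))
  have hψ : ∀ a b, DvdN (ψ a) (ψ b) ↔ DvdN a b := by
    intro a b
    have h3 := hφ ((clEquiv h₁).symm a) ((clEquiv h₁).symm b)
    rw [dvd_iff h₁, dvd_iff h₂] at h3
    simpa [ψ] using h3
  have hco := co_eq h₁ h₂ ψ hψ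
  have hcard := no_count ψ hco
  have hex : ∃ k, ¬ (k ∈ S₁ ↔ k ∈ S₂) := by
    by_contra h
    push Not at h
    exact hne (AddSubmonoid.ext h)
  have hmin : ∀ n < Nat.find hex, (n ∈ S₁ ↔ n ∈ S₂) := fun n hn => not_not.1 (Nat.find_min hex hn)
  have hk := Nat.find_spec hex
  by_cases h3 : Nat.find hex ∈ S₁
  · have h4 : Nat.find hex ∉ S₂ := fun h => hk ⟨fun _ => h, fun _ => h3⟩
    obtain ⟨c, hc⟩ := count h₁ _ h3 h4 hmin
    have := Set.ncard_lt_ncard hc (dn_finite h₂ c)
    rw [hcard c] at this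
    exact lt_irrefl _ this
  · have h4 : Nat.find hex ∈ S₂ := by
      by_contra h
      exact hk ⟨fun h5 => absurd h5 h3, fun h5 => absurd h5 h⟩
    obtain ⟨c, hc⟩ := count h₂ _ h4 h3 (fun n hn => (hmin n hn).symm)
    have := Set.ncard_lt_ncard hc (dn_finite h₁ c)
    rw [hcard c] at this
    exact lt_irrefl _ this

end Pool.Agent.Results.MP_6e7624_al.PosetDeterminesH61
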